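import Pool.Agent.P8H48.LV.Stm
import Pool.Agent.P8H48.DC.Opn
import Pool.Agent.P8H44.DC.Cls
import Pool.Agent.P8H62.DC.Aff

/-!
# Project LV, package CVS (helper23): the cover at one level
-/

set_option autoImplicit false

open CategoryTheory AlgebraicGeometry MvPolynomial Pool.Agent.Y116.UV
open Pool.Agent.Z125.UN hiding ch
open Pool.Agent.P8H48.DC hiding ch
open Pool.Agent.P8H48.LV

namespace Pool.Agent.P8H23.LV

/-- a closed subscheme whose complement is affine -/
lemma trip {R B D : Type} [CommRing R] [CommRing B] [CommRing D] [Algebra R B] [Algebra R D]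
    (s : Set B) (φ : B →ₐ[R] D)
    (ho : IsOpenImmersion (Spec.map (CommRingCat.ofHom φ.toRingHom)))
    (hr : Set.range (Spec.map (CommRingCat.ofHom φ.toRingHom)) = (PrimeSpectrum.zeroLocus s)ᶜ) :
    ∃ (i : aff R (B ⧸ Ideal.span s) ⟶ aff R B) (j : aff R D ⟶ aff R B), IsTriple i j := by
  let i : aff R (B ⧸ Ideal.span s) ⟶ aff R B :=
    Over.homMk (Spec.map (CommRingCat.ofHom (Ideal.Quotient.mk (Ideal.span s)))) (by
      change Spec.map _ ≫ Spec.map _ = Spec.map _
      rw [← Spec.map_comp]
      rfl)
  let j : aff R D ⟶ aff R B :=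
    Over.homMk (Spec.map (CommRingCat.ofHom φ.toRingHom)) (by
      change Spec.map _ ≫ Spec.map _ = Spec.map _
      rw [← Spec.map_comp, ← CommRingCat.ofHom_comp]
      congr 2
      exact φ.comp_algebraMap)
  have h3 : Set.range i.left = PrimeSpectrum.zeroLocus (Ideal.span s : Set B) := by
    have h4 := range_comap_of_surjective _ (Ideal.Quotient.mk (Ideal.span s))
      Ideal.Quotient.mk_surjective
    rw [Ideal.mk_ker] at h4
    exact h4
  have h5 : Set.range j.left = (PrimeSpectrum.zeroLocus s)ᶜ := hr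
  refine ⟨i, j, IsClosedImmersion.spec_of_surjective _ Ideal.Quotient.mk_surjective, ho, ?_⟩
  rw [PrimeSpectrum.zeroLocus_span] at h3
  exact h3.trans ((compl_compl (PrimeSpectrum.zeroLocus s)).symm.trans (congrArg _ h5.symm))

section

variable {R : Type} [CommRing R] {P : ℕ → Sch R → Prop} (hP : Lv P) (n : ℕ)

include hP

lemma l_iso {A B : Type} [CommRing A] [CommRing B] [Algebra R A] [Algebra R B]
    [Algebra.FiniteType R A] (e : A ≃ₐ[R] B) (h : P n (aff R A)) : P n (aff R B) :=
  hP.iso n (ft_aff False) ⟨(affIso e).symm⟩ h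

lemma l_poly (A : Type) [CommRing A] [Algebra R A] [Algebra.FiniteType R A] (m : ℕ) :
    P n (aff R A) ↔ P n (aff R (MvPolynomial (Fin m) A)) := by
  have h1 : IsOpenImmersion (𝟙 (aff R A) : aff R A ⟶ aff R A).left :=
    inferInstanceAs (IsOpenImmersion (𝟙 (aff R A).left))
  have h2 : Set.range (𝟙 (aff R A) : aff R A ⟶ aff R A).left =
      {x : PrimeSpectrum A | ∃ l, f1 A m l ∉ x.asIdeal} := by
    have h1 : Set.range (𝟙 (aff R A) : aff R A ⟶ aff R A).left = Set.univ := Set.range_id
    have h2 : {x : PrimeSpectrum A | ∃ l, f1 A m l ∉ x.asIdeal} = Set.univ := by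
      rw [Set.eq_univ_iff_forall]
      intro x
      exact ⟨0, fun h => x.isPrime.ne_top ((Ideal.eq_top_iff_one _).mpr h)⟩
    exact h1.trans h2.symm
  have h3 := hP.bundle n A (m + 1) (f1 A m) (aff R A) (𝟙 _) h1 h2
  have hf1 : Algebra.FiniteType R (Jou (f1 A m)) :=
    Algebra.FiniteType.trans (S := A) inferInstance inferInstance
  have hf2 : Algebra.FiniteType R (MvPolynomial (Fin m) A) :=
    Algebra.FiniteType.trans (S := A) inferInstance inferInstance
  exact ⟨fun h => l_iso hP n ((jouOne A m).restrictScalars R) (h3.1 h),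
    fun h => h3.2 (l_iso hP n ((jouOne A m).restrictScalars R).symm h)⟩

/-- the empty scheme -/
lemma l_empty (B : Type) [CommRing B] [Algebra R B] (hB : Subsingleton B) : P n (aff R B) := by
  have h2 : P (n + 1) (aff R (Localization.Away (1 : R))) := by
    have e := IsLocalization.atUnits R (Submonoid.powers (1 : R)) (S := Localization.Away (1 : R))
      (by rintro _ ⟨n, rfl⟩; simp)
    exact l_iso hP (n + 1) e (hP.base (n + 1))
  have h3 : P n (aff R (R ⧸ Ideal.span {(1 : R)})) :=
    hP.closed n _ _ (ft_aff False) (triple_away (1 : R)) (hP.base n) h2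
  have h4 : Subsingleton (R ⧸ Ideal.span {(1 : R)}) :=
    Ideal.Quotient.subsingleton_iff.mpr Ideal.span_singleton_one
  let e : (R ⧸ Ideal.span {(1 : R)}) ≃ₐ[R] B :=
    AlgEquiv.ofRingEquiv (f := { toFun := fun _ => 0
                                 invFun := fun _ => 0
                                 left_inv := fun _ => Subsingleton.elim _ _
                                 right_inv := fun _ => Subsingleton.elim _ _
                                 map_mul' := fun _ _ => Subsingleton.elim _ _
                                 map_add' := fun _ _ => Subsingleton.elim _ _ })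
      (fun _ => Subsingleton.elim _ _)
  exact l_iso hP n e h3

/-- two comaximal elements with product zero -/
lemma l_split {E : Type} [CommRing E] [Algebra R E] [Algebra.FiniteType R E] {u v : E}
    (huv : u * v = 0) (hc : IsCoprime u v) (hu : P n (aff R (E ⧸ Ideal.span {u})))
    (hv : P n (aff R (E ⧸ Ideal.span {v}))) : P n (aff R E) := by
  obtain ⟨a, b, hab⟩ := hc
  have hmv : (Ideal.Quotient.mk (Ideal.span {v})) v = 0 :=
    Ideal.Quotient.eq_zero_iff_mem.2 (Ideal.mem_span_singleton_self _)
  have hun : IsUnit (algebraMap E (E ⧸ Ideal.span {v}) u) := by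
    refine IsUnit.of_mul_eq_one (Ideal.Quotient.mk (Ideal.span {v}) a) ?_
    change Ideal.Quotient.mk (Ideal.span {v}) u * _ = 1
    rw [← map_mul, ← map_one (Ideal.Quotient.mk (Ideal.span {v})), ← hab, map_add, map_mul _ b v,
      hmv, mul_zero, add_zero, mul_comm]
  have hloc : IsLocalization.Away u (E ⧸ Ideal.span {v}) := by
    refine ⟨?_, ?_, ?_⟩
    · rintro ⟨_, k, rfl⟩
      change IsUnit (algebraMap E (E ⧸ Ideal.span {v}) (u ^ k))
      rw [map_pow]
      exact hun.pow k
    · intro z
      obtain ⟨y, rfl⟩ := Ideal.Quotient.mk_surjective z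
      refine ⟨(y, 1), ?_⟩
      change _ * algebraMap E (E ⧸ Ideal.span {v}) 1 = algebraMap E (E ⧸ Ideal.span {v}) y
      rw [map_one, mul_one]
      rfl
    · intro x y hxy
      have h6 : Ideal.Quotient.mk (Ideal.span {v}) x = Ideal.Quotient.mk (Ideal.span {v}) y := hxy
      rw [Ideal.Quotient.eq, Ideal.mem_span_singleton] at h6
      obtain ⟨c, hc⟩ := h6
      refine ⟨⟨u ^ 1, 1, rfl⟩, ?_⟩
      change u ^ 1 * x = u ^ 1 * y
      linear_combination u * hc + c * huv
  let e : (E ⧸ Ideal.span {v}) ≃ₐ[E] Localization.Away u :=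
    IsLocalization.algEquiv (Submonoid.powers u) (E ⧸ Ideal.span {v}) (Localization.Away u)
  have hft : Algebra.FiniteType R (E ⧸ Ideal.span {v}) :=
    Algebra.FiniteType.trans (S := E) inferInstance inferInstance
  exact hP.total n _ _ (ft_aff False) (triple_away u) hu (l_iso hP n (e.restrictScalars R) hv)

/-- quotients of quotients -/
lemma l_quot {A : Type} [CommRing A] [Algebra R A] [Algebra.FiniteType R A]
    (I J : Ideal A) (h : P n (aff R (A ⧸ (I ⊔ J)))) :
    P n (aff R ((A ⧸ I) ⧸ Ideal.map (Ideal.Quotient.mkₐ R I) J)) := by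
  have hft : Algebra.FiniteType R (A ⧸ (I ⊔ J)) :=
    Algebra.FiniteType.trans (S := A) inferInstance inferInstance
  exact l_iso hP n (DoubleQuot.quotQuotEquivQuotSupₐ R I J).symm h

/-- quotients of quotients -/
lemma l_mk {A : Type} [CommRing A] [Algebra R A] [Algebra.FiniteType R A] (I : Ideal A) (a : A)
    (h : P n (aff R (A ⧸ (I ⊔ Ideal.span {a})))) :
    P n (aff R ((A ⧸ I) ⧸ Ideal.span {Ideal.Quotient.mk I a})) := by
  have h2 : Ideal.map (Ideal.Quotient.mkₐ R I) (Ideal.span {a}) =
      Ideal.span {Ideal.Quotient.mk I a} := by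
    rw [Ideal.map_span, Set.image_singleton]
    rfl
  rw [← h2]
  exact l_quot hP n I _ h

variable {A : Type} [CommRing A] [Algebra R A] [Algebra.FiniteType R A] (f : A)

/-- the closed part -/
lemma l_lines (S : Finset R) : UnitDiff S → P n (aff R (A ⧸ Ideal.span {f})) →
    P n (aff R (MvPolynomial (Fin 2) A ⧸ (Ideal.span {(C f : MvPolynomial (Fin 2) A)} ⊔
      Ideal.span {∏ c ∈ S, (X 1 - C (algebraMap R A c) : MvPolynomial (Fin 2) A)}))) := by
  classical
  induction S using Finset.induction_on with
  | empty =>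
    intro _ _
    refine l_empty hP n _ ?_
    rw [Ideal.Quotient.subsingleton_iff, Finset.prod_empty, Ideal.span_singleton_one, sup_top_eq]
  | insert c T hc ih =>
    intro hS hA
    have hT : UnitDiff T := fun a ha b hb hab =>
      hS a (Finset.mem_insert_of_mem ha) b (Finset.mem_insert_of_mem hb) hab
    have ih := ih hT hA
    set g := ∏ c ∈ T, (X 1 - C (algebraMap R A c) : MvPolynomial (Fin 2) A) with hg
    set l := (X 1 - C (algebraMap R A c) : MvPolynomial (Fin 2) A) with hl
    rw [Finset.prod_insert hc]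
    set I := Ideal.span {(C f : MvPolynomial (Fin 2) A)} ⊔ Ideal.span {l * g} with hI
    have hft : Algebra.FiniteType R (MvPolynomial (Fin 2) A) :=
      Algebra.FiniteType.trans (S := A) inferInstance inferInstance
    have hft2 : Algebra.FiniteType R (MvPolynomial (Fin 2) A ⧸ I) :=
      Algebra.FiniteType.trans (S := MvPolynomial (Fin 2) A) inferInstance inferInstance
    have h1 : I ⊔ Ideal.span {g} = Ideal.span {(C f : MvPolynomial (Fin 2) A)} ⊔
        Ideal.span {g} := by
      rw [hI, sup_assoc]
      congr 1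
      refine sup_eq_right.2 ?_
      rw [Ideal.span_singleton_le_iff_mem]
      exact Ideal.mul_mem_left _ _ (Ideal.mem_span_singleton_self _)
    have h2 : I ⊔ Ideal.span {l} = Ideal.span {(C f : MvPolynomial (Fin 2) A)} ⊔
        Ideal.span {l} := by
      rw [hI, sup_assoc]
      congr 1
      refine sup_eq_right.2 ?_
      rw [Ideal.span_singleton_le_iff_mem]
      exact Ideal.mul_mem_right _ _ (Ideal.mem_span_singleton_self _)
    refine l_split hP n (u := Ideal.Quotient.mk I l) (v := Ideal.Quotient.mk I g) ?_ ?_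
      (l_mk hP n I _ ?_) (l_mk hP n I _ ?_)
    · rw [← map_mul, Ideal.Quotient.eq_zero_iff_mem]
      exact Ideal.mem_sup_right (Ideal.mem_span_singleton_self _)
    · refine IsCoprime.map ?_ (Ideal.Quotient.mk I)
      rw [hg]
      refine IsCoprime.prod_right fun b hb => ?_
      have hcb : c ≠ b := fun h => hc (h ▸ hb)
      have hu : IsUnit (c - b) := hS c (Finset.mem_insert_self _ _) b
        (Finset.mem_insert_of_mem hb) hcb
      obtain ⟨w, hw⟩ := hu.exists_right_inv
      refine ⟨-C (algebraMap R A w), C (algebraMap R A w), ?_⟩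
      have h3 : -C (algebraMap R A w) * l + C (algebraMap R A w) *
          (X 1 - C (algebraMap R A b)) =
          (C (algebraMap R A ((c - b) * w)) : MvPolynomial (Fin 2) A) := by
        rw [hl, map_mul, map_sub, map_mul, map_sub]
        ring
      rw [h3, hw, map_one, map_one]
    · rw [h2]
      have hftA : Algebra.FiniteType R (A ⧸ Ideal.span {f}) :=
        Algebra.FiniteType.trans (S := A) inferInstance inferInstance
      have hft3 : Algebra.FiniteType R (MvPolynomial (Fin 1) (A ⧸ Ideal.span {f})) :=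
        Algebra.FiniteType.trans (S := A ⧸ Ideal.span {f}) inferInstance inferInstance
      exact l_iso hP n ((Pool.Agent.P8H62.DC.lnE f (algebraMap R A c)).restrictScalars R)
        ((l_poly hP n _ 1).1 hA)
    · rw [h1]
      exact ih

/-- the closed subscheme `V(f, h_a)` of the cover -/
lemma l_vfh (S : Finset R) (a : R) (ha : a ∈ S) (hS : UnitDiff S)
    (hf : P n (aff R (A ⧸ Ideal.span {f}))) :
    P n (aff R (Cov S f ⧸ Ideal.span ({cf S f, Pool.Agent.P8H48.DC.ch S f a} : Set (Cov S f)))) := by
  classical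
  have hT : UnitDiff (S.erase a) := fun x hx y hy hxy =>
    hS x (Finset.mem_of_mem_erase hx) y (Finset.mem_of_mem_erase hy) hxy
  have h1 := l_lines hP n f (S.erase a) hT hf
  set J : Ideal (MvPolynomial (Fin 2) A) := Ideal.span {(C f : MvPolynomial (Fin 2) A)} ⊔
      Ideal.span {∏ c ∈ S.erase a, (X 1 - C (algebraMap R A c) : MvPolynomial (Fin 2) A)} with hJ
  have hIJ : Ideal.span {eqn S f} ⊔ J = J := by
    refine sup_eq_right.2 ?_
    rw [Ideal.span_singleton_le_iff_mem, eqn, ← Finset.mul_prod_erase S _ ha]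
    refine sub_mem ?_ ?_
    · exact Ideal.mul_mem_left _ _ (Ideal.mem_sup_right (Ideal.mem_span_singleton_self _))
    · exact Ideal.mul_mem_left _ _ (Ideal.mem_sup_left (Ideal.mem_span_singleton_self _))
  have hft : Algebra.FiniteType R (MvPolynomial (Fin 2) A) :=
    Algebra.FiniteType.trans (S := A) inferInstance inferInstance
  rw [← hIJ] at h1
  have h2 := l_quot hP n (Ideal.span {eqn S f}) J h1
  have h3 : Ideal.map (Ideal.Quotient.mkₐ R (Ideal.span {eqn S f})) J =
      Ideal.span ({cf S f, Pool.Agent.P8H48.DC.ch S f a} : Set (Cov S f)) := by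
    have h4 : Pool.Agent.P8H48.DC.ch S f a = Ideal.Quotient.mk _ (∏ b ∈ S.erase a, (X 1 - C (algebraMap R A b))) := by
      unfold Pool.Agent.P8H48.DC.ch
      convert rfl
    rw [h4, hJ, Ideal.map_sup, Ideal.map_span, Ideal.map_span, Set.image_singleton,
      Set.image_singleton, Ideal.span_insert]
    rfl
  rw [h3] at h2
  exact h2

omit [CommRing A] [Algebra R A] [Algebra.FiniteType R A] in
/-- open and closed parts -/
lemma l_summ (hS : Summ P) {B D : Type} [CommRing B] [CommRing D] [Algebra R B]
    [Algebra R D] [Algebra.FiniteType R B] (ψ : B →ₐ[R] D) (hψ : Function.Surjective ψ) (e : B)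
    (he : IsIdempotentElem e) (hk : RingHom.ker ψ = Ideal.span {e}) (h : P n (aff R B)) :
    P n (aff R D) := by
  have h6 := hS n B e he h
  let E : (B ⧸ Ideal.span {e}) ≃ₐ[R] D :=
    (Ideal.quotientEquivAlgOfEq R hk.symm).trans (Ideal.quotientKerAlgEquivOfSurjective hψ)
  have hft : Algebra.FiniteType R (B ⧸ Ideal.span {e}) :=
    Algebra.FiniteType.trans (S := B) inferInstance inferInstance
  exact l_iso hP n E h6


end

/-- **CVS.** -/
theorem cvs : S_CVS := by
  intro R _ P hP hSu n A _ _ _ S f hU h2 hA hA1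
  obtain ⟨a, ha, b, hb, hab⟩ := Finset.one_lt_card.mp h2
  obtain ⟨φ, ho, hr⟩ := Pool.Agent.P8H48.DC.Opn.opn R A S f a ha hU
  obtain ⟨ψ, hψ, e, he, hk⟩ := Pool.Agent.P8H44.DC.cls R A S f a b ha hb hab hU
  obtain ⟨i, j, ht⟩ := trip _ φ ho hr
  have hft : Algebra.FiniteType R (Cov S f) :=
    Algebra.FiniteType.trans (S := A) inferInstance inferInstance
  constructor
  · intro hf
    exact hP.total n i j (ft_aff False) ht (l_vfh hP n f S a ha hU hf) ((l_poly hP n A 1).1 hA)
  · intro hC
    have hW := hP.closed n i j (ft_aff False) ht hC ((l_poly hP (n + 1) A 1).1 hA1)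
    have hftI : Algebra.FiniteType R (Cov S f ⧸ Ideal.span
        ({cf S f, Pool.Agent.P8H48.DC.ch S f a} : Set (Cov S f))) :=
      Algebra.FiniteType.trans (S := Cov S f) inferInstance inferInstance
    have hftA : Algebra.FiniteType R (A ⧸ Ideal.span {f}) :=
      Algebra.FiniteType.trans (S := A) inferInstance inferInstance
    exact (l_poly hP n _ 1).2 (l_summ hP n hSu ψ hψ e he hk hW)

end Pool.Agent.P8H23.LV
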